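import Pool.Agent.KS6_54.MP.Final
import Pool.Agent.KS6_54.MP.LinearCover

/-!
# Monotone path covers of dense point sets: the exponent 3/2

There are `16`-dense `n`-point sets in general position for which every cover of the complete
geometric graph by monotone paths has at least `n ^ (3 / 2) / (8192 log n)` paths. Since `O(n ^ (3/2))`
monotone paths suffice for every dense set, the exponent `3 / 2` is best possible. On the other
hand there are dense sets for which linearly many monotone paths suffice.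

The set consists of about `√n` rows of about `√n` points each, which lie almost on lines through
one point at distance `2 √n` from the first column; the perturbation which brings the points to
general position is lacunary along each row. For every direction and for every row that is not
orthogonal to it the linear form is, up to a constant, a product of a number that depends on the
row and of the distance from the common point of the lines. So the logarithm of the linear form
grows by at least `ℓ / (4 √n)` in a step of length `ℓ` inside a row, and its total variation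
along a monotone path is `O(log n)`. Hence the steps of a path inside the rows have total length
`O(√n log n)`, while the total length of all edges inside the rows is of order `n ^ 2`.
-/

set_option autoImplicit false

namespace Pool.Agent.Results.MP_9c8b61_co.ThreeHalves

open Filter Pool.Agent.KS6_54.MP

/-- the Euclidean plane -/
abbrev Plane := EuclideanSpace ℝ (Fin 2)

/-- general position: no three points are collinear -/
def GeneralPosition (A : Finset Plane) : Prop :=
  ∀ a ∈ A, ∀ b ∈ A, ∀ c ∈ A, a ≠ b → a ≠ c → b ≠ c → ¬ Collinear ℝ {a, b, c}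

/-- `α`-dense: the ratio of the largest and the smallest distance is at most `α √n` -/
def IsDense (α : ℝ) (A : Finset Plane) : Prop :=
  ∀ a ∈ A, ∀ b ∈ A, ∀ c ∈ A, ∀ d ∈ A, c ≠ d → dist a b ≤ α * √(A.card : ℝ) * dist c d

/-- a monotone path with vertices in `A`, given by the list of its vertices -/
def IsMonotonePath (A : Finset Plane) (l : List Plane) : Prop :=
  (∀ v ∈ l, v ∈ A) ∧ ∃ u : Plane, u ≠ 0 ∧ l.IsChain fun v w => (0 : ℝ) < inner ℝ (w - v) u

/-- `a` and `b` are consecutive vertices of the path, in this order -/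
def IsStep (l : List Plane) (a b : Plane) : Prop := ∃ s t, l = s ++ a :: b :: t

/-- a family of `k` monotone paths which covers the edges of the complete geometric graph -/
def IsCover (A : Finset Plane) {k : ℕ} (ξ : Fin k → List Plane) : Prop :=
  (∀ i, IsMonotonePath A (ξ i)) ∧
    ∀ a ∈ A, ∀ b ∈ A, a ≠ b → ∃ i, IsStep (ξ i) a b ∨ IsStep (ξ i) b a

/-- `mc(A)`, the least size of a family of monotone paths which covers the complete geometric
graph -/
noncomputable def mc (A : Finset Plane) : ℕ := sInf {k : ℕ | ∃ ξ : Fin k → List Plane, IsCover A ξ}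

lemma mc_eq (A : Finset Plane) : mc A = KS6_54.MP.mc A := rfl

/-- the theorem for one size -/
lemma exists_big {n : ℕ} (hn : 400 ≤ n) :
    ∃ A : Finset Plane, A.card = n ∧ GeneralPosition A ∧ IsDense 16 A ∧
      (n : ℝ) ^ (3 / 2 : ℝ) ≤ 8192 * Real.log n * mc A := by
  obtain ⟨m, hm⟩ : ∃ m, m = Nat.sqrt n := ⟨_, rfl⟩
  have hm1 : m * m ≤ n := by rw [hm]; exact Nat.sqrt_le n
  have hm2 : n < (m + 1) * (m + 1) := by rw [hm]; exact Nat.lt_succ_sqrt n
  obtain ⟨M, hM⟩ : ∃ M, M = m + 1 := ⟨_, rfl⟩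
  rw [← hM] at hm2
  have hM1 : (M - 1) * (M - 1) ≤ n := by
    rw [hM, Nat.add_sub_cancel]
    exact hm1
  have hM20 : 20 < M := by
    by_contra hcon
    push Not at hcon
    have : M * M ≤ 20 * 20 := Nat.mul_le_mul hcon hcon
    omega
  obtain ⟨A, h1, h2, h3, h4⟩ := exists_set (M := M) (n := n) (by omega) hM1 hm2.le
  refine ⟨A, h1, h2, h3, ?_⟩
  rw [mc_eq]
  have hMR : (20 : ℝ) < M := by exact_mod_cast hM20
  have hnR : (400 : ℝ) ≤ n := by exact_mod_cast hn
  have hmc : (0 : ℝ) ≤ KS6_54.MP.mc A := Nat.cast_nonneg _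
  have hlog1 : 1 ≤ Real.log (64 * M) := by
    rw [Real.le_log_iff_exp_le (by positivity)]
    have := Real.exp_one_lt_d9
    linarith
  have hMn : (M : ℝ) ≤ n / 16 := by
    have e : (M : ℝ) - 1 ≤ n / 20 := by
      have e1 : ((M : ℝ) - 1) * (M - 1) ≤ n := by
        have : (((M - 1) * (M - 1) : ℕ) : ℝ) ≤ n := by exact_mod_cast hM1
        rw [Nat.cast_mul, Nat.cast_sub (by omega), Nat.cast_one] at this
        exact this
      have e2 : (20 : ℝ) ≤ M - 1 := by
        have : (21 : ℝ) ≤ M := by exact_mod_cast hM20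
        linarith
      nlinarith
    linarith
  have hlog2 : Real.log (64 * M) ≤ 2 * Real.log n := by
    have : Real.log ((n : ℝ) ^ 2) = 2 * Real.log n := by
      rw [Real.log_pow]
      norm_num
    rw [← this]
    refine Real.log_le_log (by positivity) ?_
    nlinarith
  have hBB : BB M ≤ 24 * M * Real.log (64 * M) := by
    unfold BB
    nlinarith
  have ht : (M : ℝ) / 4 ≤ (((M - 1) / 3 : ℕ) : ℝ) := by
    have : M ≤ 4 * ((M - 1) / 3) := by omega
    have h5 : (M : ℝ) ≤ 4 * (((M - 1) / 3 : ℕ) : ℝ) := by exact_mod_cast this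
    linarith
  have h5 : 3 * ((M : ℝ) / 4) ^ 4 ≤ KS6_54.MP.mc A * (2 * (24 * M * Real.log (64 * M))) := by
    calc 3 * ((M : ℝ) / 4) ^ 4 ≤ 3 * (((M - 1) / 3 : ℕ) : ℝ) ^ 4 :=
          mul_le_mul_of_nonneg_left (pow_le_pow_left₀ (by positivity) ht 4) (by norm_num)
      _ ≤ KS6_54.MP.mc A * (2 * BB M) := h4
      _ ≤ _ := mul_le_mul_of_nonneg_left (by linarith) hmc
  have h6 : (M : ℝ) ^ 3 ≤ 4096 * Real.log (64 * M) * KS6_54.MP.mc A := by
    have e1 : (0 : ℝ) < M := by linarith
    refine le_of_mul_le_mul_left ?_ e1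
    nlinarith
  have h7 : (n : ℝ) ^ (3 / 2 : ℝ) ≤ (M : ℝ) ^ 3 := by
    have e1 : (n : ℝ) ≤ (M : ℝ) ^ (2 : ℝ) := by
      have : (n : ℝ) ≤ M * M := by exact_mod_cast hm2.le
      rw [Real.rpow_two, pow_two]
      exact this
    calc (n : ℝ) ^ (3 / 2 : ℝ) ≤ ((M : ℝ) ^ (2 : ℝ)) ^ (3 / 2 : ℝ) :=
          Real.rpow_le_rpow (Nat.cast_nonneg n) e1 (by norm_num)
      _ = (M : ℝ) ^ 3 := by
          rw [← Real.rpow_mul (Nat.cast_nonneg M), ← Real.rpow_natCast]
          norm_num
  calc (n : ℝ) ^ (3 / 2 : ℝ) ≤ (M : ℝ) ^ 3 := h7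
    _ ≤ 4096 * Real.log (64 * M) * KS6_54.MP.mc A := h6
    _ ≤ 4096 * (2 * Real.log n) * KS6_54.MP.mc A := by gcongr
    _ = 8192 * Real.log n * KS6_54.MP.mc A := by ring

/-- the covers of the earlier run as lists -/
lemma cover_of {A : Finset Plane} {k : ℕ} (h : MonoPath.HasCover A k) :
    ∃ ξ : Fin k → List Plane, IsCover A ξ := by
  obtain ⟨t, v, h1, h2⟩ := h
  refine ⟨fun s => List.ofFn (v s), fun s => ⟨fun x hx => ?_, ?_⟩, fun a ha b hb hab => ?_⟩
  · obtain ⟨i, rfl⟩ := List.mem_ofFn.1 hx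
    exact (h1 s).1 i
  · obtain ⟨u, hu, hs⟩ := (h1 s).2
    refine ⟨u, hu, ?_⟩
    rw [List.isChain_iff_getElem]
    intro i hi
    rw [List.getElem_ofFn, List.getElem_ofFn]
    exact hs _ _ rfl
  · have key : ∀ (s : Fin k) (i j : Fin (t s)), (j : ℕ) = i + 1 →
        IsStep (List.ofFn (v s)) (v s i) (v s j) := by
      intro s i j hij
      refine ⟨(List.ofFn (v s)).take i, (List.ofFn (v s)).drop (i + 2), ?_⟩
      have hj := j.2
      have e1 : (List.ofFn (v s))[(i : ℕ)]'(by simp) = v s i := by simp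
      have e2 : (List.ofFn (v s))[(i : ℕ) + 1]'(by simp; omega) = v s j := by
        rw [List.getElem_ofFn]
        congr 1
        exact Fin.ext hij.symm
      rw [← e1, ← e2, List.cons_getElem_drop_succ (n := (i : ℕ) + 1),
        List.cons_getElem_drop_succ (n := (i : ℕ)), List.take_append_drop]
    obtain ⟨s, i, j, hij, h⟩ := h2 a ha b hb hab
    refine ⟨s, ?_⟩
    rcases h with ⟨rfl, rfl⟩ | ⟨rfl, rfl⟩
    · exact Or.inl (key s i j hij)
    · exact Or.inr (key s i j hij)

lemma mc_le (A : Finset Plane) : mc A ≤ MonoPath.mc A :=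
  Nat.sInf_le (cover_of (Nat.sInf_mem (MonoPath.exists_cover A)))

/-- **Q1 (positive), with the optimal exponent, and Q2 (negative).** -/
theorem result :
    (∃ A : ℕ → Finset Plane,
      (∀ n ≥ 400, (A n).card = n ∧ GeneralPosition (A n) ∧ IsDense 16 (A n) ∧
        (n : ℝ) ^ (3 / 2 : ℝ) / (8192 * Real.log n) ≤ mc (A n)) ∧
      Tendsto (fun n => (mc (A n) : ℝ) / n) atTop atTop) ∧
    (∃ (α : ℝ) (C : ℕ), 0 < α ∧ ∀ n : ℕ, 1 ≤ n → ∃ A : Finset Plane,
      A.card = n ∧ GeneralPosition A ∧ IsDense α A ∧ mc A ≤ C * n) ∧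
    ¬ ∀ α : ℝ, 0 < α → ∀ K : ℝ, ∃ n₀ : ℕ, ∀ n ≥ n₀, ∀ A : Finset Plane, A.card = n →
      GeneralPosition A → IsDense α A → K ≤ (mc A : ℝ) / n := by
  classical
  have key : ∀ n : ℕ, ∃ A : Finset Plane, 400 ≤ n → (A.card = n ∧ GeneralPosition A ∧
      IsDense 16 A ∧ (n : ℝ) ^ (3 / 2 : ℝ) / (8192 * Real.log n) ≤ mc A) := by
    intro n
    by_cases hn : 400 ≤ n
    · obtain ⟨A, h1, h2, h3, h4⟩ := exists_big hn
      have hnR : (400 : ℝ) ≤ n := by exact_mod_cast hn
      have hl : 0 < Real.log n := Real.log_pos (by linarith)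
      exact ⟨A, fun _ => ⟨h1, h2, h3, by
        rw [div_le_iff₀ (by positivity)]
        linarith⟩⟩
    · exact ⟨∅, fun h => absurd h hn⟩
  choose A hA using key
  have lin : ∃ (α : ℝ) (C : ℕ), 0 < α ∧ ∀ n : ℕ, 1 ≤ n → ∃ A : Finset Plane,
      A.card = n ∧ GeneralPosition A ∧ IsDense α A ∧ mc A ≤ C * n := by
    obtain ⟨α, C, hα, h⟩ := LinearCover.result
    refine ⟨α, C, hα, fun n hn => ?_⟩
    obtain ⟨A, h1, h2, h3, h4⟩ := h n hn
    exact ⟨A, h1, fun a ha b hb c hc hab hac hbc => h2 a ha b hb c hc hab hbc hac, h3,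
      (mc_le A).trans h4⟩
  refine ⟨⟨A, fun n hn => hA n hn, ?_⟩, lin, fun h => ?_⟩
  · have h1 : Tendsto (fun n : ℕ => (n : ℝ) ^ (1 / 2 : ℝ) / (8192 * Real.log n)) atTop atTop := by
      have h2 : Tendsto (fun x : ℝ => Real.log x / x ^ (1 / 2 : ℝ)) atTop (nhds 0) :=
        (isLittleO_log_rpow_atTop (by norm_num : (0 : ℝ) < 1 / 2)).tendsto_div_nhds_zero
      have h3 : Tendsto (fun n : ℕ => 8192 * (Real.log n / (n : ℝ) ^ (1 / 2 : ℝ))) atTop
          (nhdsWithin 0 (Set.Ioi 0)) := by
        rw [tendsto_nhdsWithin_iff]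
        constructor
        · simpa using (h2.comp tendsto_natCast_atTop_atTop).const_mul (8192 : ℝ)
        · filter_upwards [eventually_ge_atTop 2] with n hn
          have : (2 : ℝ) ≤ n := by exact_mod_cast hn
          have hl : 0 < Real.log n := Real.log_pos (by linarith)
          exact Set.mem_Ioi.2 (by positivity)
      refine (h3.inv_tendsto_nhdsGT_zero).congr' ?_
      filter_upwards with n
      rw [Pi.inv_apply, mul_div_assoc', inv_div]
    refine tendsto_atTop_mono' _ ?_ h1
    filter_upwards [eventually_ge_atTop 400] with n hn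
    have hnR : (400 : ℝ) ≤ n := by exact_mod_cast hn
    have h2 := (hA n hn).2.2.2
    rw [le_div_iff₀ (by linarith)]
    refine le_trans (le_of_eq ?_) h2
    rw [div_mul_eq_mul_div]
    congr 1
    calc (n : ℝ) ^ (1 / 2 : ℝ) * n = (n : ℝ) ^ (1 / 2 : ℝ) * (n : ℝ) ^ (1 : ℝ) := by
          rw [Real.rpow_one]
      _ = (n : ℝ) ^ (3 / 2 : ℝ) := by
          rw [← Real.rpow_add (by linarith)]
          norm_num
  · obtain ⟨α, C, hα, h1⟩ := lin
    obtain ⟨n₀, h2⟩ := h α hα (C + 1)
    obtain ⟨B, b1, b2, b3, b4⟩ := h1 (n₀ + 1) (by omega)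
    have h3 := h2 (n₀ + 1) (by omega) B b1 b2 b3
    rw [le_div_iff₀ (by positivity)] at h3
    have h4 : (mc B : ℝ) ≤ C * ((n₀ + 1 : ℕ) : ℝ) := by exact_mod_cast b4
    have h5 : (0 : ℝ) < ((n₀ + 1 : ℕ) : ℝ) := by positivity
    linarith

end Pool.Agent.Results.MP_9c8b61_co.ThreeHalves
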